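import Pool.Agent.W559.Wr.StmR

/-!
# Relabelling of the factors, relative version
-/

set_option autoImplicit false
set_option linter.unusedSectionVars false

open TensorProduct

universe u

namespace Pool.Agent.W366.WRR

open Pool.Agent.W559.Wr

section

variable {k K M : Type u} [Field k] [Field K] [Algebra k K] [Field M] [Algebra k M]
  {ι ι' : Type} [Fintype ι] [Fintype ι']

theorem mulM_tprod (e : ι → K →ₐ[k] M) (x : ι → K) :
    mulM e (PiTensorProduct.tprod k x) = ∏ i, e i (x i) := by
  unfold mulM
  rw [PiTensorProduct.lift.tprod]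
  rfl

theorem ldis_reindex (f : ι ≃ ι') (e : ι' → K →ₐ[k] M) (h : LDis e) :
    LDis (fun i => e (f i)) := by
  have h1 : mulM (fun i => e (f i)) = (mulM e).comp
      (PiTensorProduct.reindex k (fun _ : ι => K) f).toLinearMap := by
    apply PiTensorProduct.ext
    ext x
    change mulM (fun i => e (f i)) (PiTensorProduct.tprod k x) =
      mulM e (PiTensorProduct.reindex k (fun _ : ι => K) f (PiTensorProduct.tprod k x))
    rw [PiTensorProduct.reindex_tprod]
    change mulM (fun i => e (f i)) (PiTensorProduct.tprod k x) =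
      mulM e (PiTensorProduct.tprod k fun i => x (f.symm i))
    rw [mulM_tprod, mulM_tprod]
    refine Fintype.prod_equiv f _ _ fun i => ?_
    rw [Equiv.symm_apply_apply]
  unfold LDis
  rw [h1]
  exact h.comp (PiTensorProduct.reindex k (fun _ : ι => K) f).injective

theorem permGrp_reindex (f : ι ≃ ι') (e : ι' → K →ₐ[k] M) (P : Subgroup (Equiv.Perm ι)) :
    permGrp (fun i => e (f i)) P =
      permGrp e (P.map (f.permCongrHom : Equiv.Perm ι ≃* Equiv.Perm ι').toMonoidHom) := by
  ext σ
  constructor
  · rintro ⟨g, hg, h⟩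
    refine ⟨f.permCongr g, ⟨g, hg, rfl⟩, fun i x => ?_⟩
    have h1 := h (f.symm i) x
    simp only [Equiv.apply_symm_apply] at h1
    rw [h1]
    rfl
  · rintro ⟨_, ⟨g, hg, rfl⟩, h⟩
    refine ⟨g, hg, fun i x => ?_⟩
    have h1 := h (f i) x
    rw [h1]
    change e (f.permCongr g (f i)) x = e (f (g i)) x
    rw [Equiv.permCongr_apply, Equiv.symm_apply_apply]

end

theorem relR : RelRStm.{u} := by
  intro k _ ι ι' _ _ f P hP K M _ _ _ _ e hLD hsup A hA
  have hsup2 : ⨆ i, (e (f i)).fieldRange = ⊤ := by
    rw [← hsup]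
    exact f.iSup_comp (g := fun i => (e i).fieldRange)
  have hA2 : (⨆ i, A.map (e (f i))) = ⨆ i, A.map (e i) := f.iSup_comp (g := fun i => A.map (e i))
  have h := hP K M (fun i => e (f i)) (ldis_reindex f e hLD) hsup2 A hA
  rw [hA2, permGrp_reindex] at h
  exact h

end Pool.Agent.W366.WRR
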